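import Pool.Agent.E8helper15.FT.Stm

/-!
# Project FT (MP_c59389_nt), piece RB: the radical (helper52)
-/

set_option autoImplicit false

namespace Pool.Agent.E8helper52.FT

open NumberField IsDedekindDomain Pool.Agent.E8helper15.FT

theorem sum3 {ι : Type} [DecidableEq ι] (g : ι → ℝ) (hg : ∀ v, 0 ≤ g v) (T B F1 F2 : Finset ι)
    (hsub : T ⊆ (B ∪ F1) ∪ F2) :
    ∑ v ∈ T, g v ≤ ∑ v ∈ B, g v + ∑ v ∈ F1, g v + ∑ v ∈ F2, g v := by
  have hu : ∀ P Q : Finset ι, ∑ v ∈ P ∪ Q, g v ≤ ∑ v ∈ P, g v + ∑ v ∈ Q, g v := by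
    intro P Q
    rw [← Finset.sum_union_inter]
    have : 0 ≤ ∑ v ∈ P ∩ Q, g v := Finset.sum_nonneg fun v _ => hg v
    linarith
  have e1 : ∑ v ∈ T, g v ≤ ∑ v ∈ (B ∪ F1) ∪ F2, g v :=
    Finset.sum_le_sum_of_subset_of_nonneg hsub (fun v _ _ => hg v)
  have e2 := hu (B ∪ F1) F2
  have e3 := hu B F1
  linarith

theorem t_RB (h1 : S_HT) (h2 : S_SUP) : S_RB := by
  classical
  intro K _ _
  obtain ⟨c0, hc0⟩ := h1 K
  refine ⟨c0 / 2, ?_⟩
  intro l B hl0 hl1 hB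
  have hl1' : (1 : K) - l ≠ 0 := sub_ne_zero.2 (Ne.symm hl1)
  obtain ⟨fin1, sup1⟩ := h2 K l hl0
  obtain ⟨fin2, sup2⟩ := h2 K (1 - l) hl1'
  have hfin : (Supp l).Finite := (fin1.union fin2).subset (by
    intro v hv
    exact hv)
  have hpos : ∀ v : HeightOneSpectrum (𝓞 K), 0 ≤ Real.log (Ideal.absNorm v.asIdeal) :=
    fun v => Real.log_natCast_nonneg _
  have hrad : Real.log (lrad l) = ∑ v ∈ hfin.toFinset, Real.log (Ideal.absNorm v.asIdeal) := by
    unfold lrad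
    rw [finprod_mem_eq_finite_toFinset_prod _ hfin, Real.log_prod]
    intro v _
    have : Ideal.absNorm v.asIdeal ≠ 0 := by
      rw [Ne, Ideal.absNorm_eq_zero_iff]
      exact v.ne_bot
    exact_mod_cast this
  obtain ⟨F1, hF1⟩ : ∃ F1 : Finset (HeightOneSpectrum (𝓞 K)), F1 =
    hfin.toFinset.filter (fun v => v ∉ B ∧ v.valuation K l ≠ 1) := ⟨_, rfl⟩
  obtain ⟨F2, hF2⟩ : ∃ F2 : Finset (HeightOneSpectrum (𝓞 K)), F2 =
    hfin.toFinset.filter (fun v => v ∉ B ∧ v.valuation K (1 - l) ≠ 1) := ⟨_, rfl⟩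
  have hs1 : ((3 : ℕ) : ℝ) * ∑ v ∈ F1, Real.log (Ideal.absNorm v.asIdeal) ≤
      Height.logHeight₁ l := by
    refine sup1 3 (by norm_num) F1 ?_
    intro v hv
    rw [hF1, Finset.mem_filter] at hv
    exact (hB v hv.2.1).2.1 hv.2.2
  have hs2 : ((2 : ℕ) : ℝ) * ∑ v ∈ F2, Real.log (Ideal.absNorm v.asIdeal) ≤
      Height.logHeight₁ (1 - l) := by
    refine sup2 2 (by norm_num) F2 ?_
    intro v hv
    rw [hF2, Finset.mem_filter] at hv
    exact (hB v hv.2.1).2.2 hv.2.2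
  have hsub : hfin.toFinset ⊆ (B ∪ F1) ∪ F2 := by
    intro v hv
    have hv' : v ∈ Supp l := hfin.mem_toFinset.1 hv
    by_cases hvB : v ∈ B
    · simp [hvB]
    · rcases hv' with h | h
      · have : v ∈ F1 := by
          rw [hF1, Finset.mem_filter]
          exact ⟨hv, hvB, h⟩
        simp [this]
      · have : v ∈ F2 := by
          rw [hF2, Finset.mem_filter]
          exact ⟨hv, hvB, h⟩
        simp [this]
  have hle : ∑ v ∈ hfin.toFinset, Real.log (Ideal.absNorm v.asIdeal) ≤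
      ∑ v ∈ B, Real.log (Ideal.absNorm v.asIdeal) +
        ∑ v ∈ F1, Real.log (Ideal.absNorm v.asIdeal) +
        ∑ v ∈ F2, Real.log (Ideal.absNorm v.asIdeal) := by
    exact sum3 (fun v : HeightOneSpectrum (𝓞 K) => Real.log (Ideal.absNorm v.asIdeal)) hpos
      _ _ _ _ hsub
  have hh := (hc0 l).2.2.1
  rw [hrad]
  push_cast at hs1 hs2
  linarith

end Pool.Agent.E8helper52.FT
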